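import Pool.Agent.helper64.NQ.Spec

/-!
# Row NZ1: a reduced group with a normal `p`-subgroup with nilpotent quotient
-/

set_option autoImplicit false

namespace Pool.Agent.NQ

open Pool.Agent.helper58.DC Pool.Agent.DI Pool.Agent.DR

theorem NZ1_min {p : ℕ} [Fact p.Prime] {A : Type} [Group A] [Finite A] (P : Subgroup A)
    (hPn : P.Normal) (hPp : IsPGroup p P) (hP : P ≠ ⊥) :
    ∃ N : Subgroup A, MinAb N ∧ p ∣ Nat.card N := by
  have : Finite P := inferInstance
  have hnt : Nontrivial P := (Subgroup.nontrivial_iff_ne_bot P).2 hP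
  have hcn : Nontrivial (Subgroup.center P) := IsPGroup.center_nontrivial hPp
  have := hPn
  have hZn : (P ⊓ Subgroup.centralizer (P : Set A)).Normal := inferInstance
  have hZ : P ⊓ Subgroup.centralizer (P : Set A) ≠ ⊥ := by
    intro h
    obtain ⟨z, hz⟩ := exists_ne (1 : Subgroup.center P)
    apply hz
    have hzm : (z.1 : A) ∈ P ⊓ Subgroup.centralizer (P : Set A) := by
      refine Subgroup.mem_inf.2 ⟨z.1.2, ?_⟩
      rw [Subgroup.mem_centralizer_iff]
      intro y hy
      have := (Subgroup.mem_center_iff.1 z.2) ⟨y, hy⟩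
      exact congrArg Subtype.val this
    rw [h, Subgroup.mem_bot] at hzm
    exact Subtype.ext (Subtype.ext hzm)
  obtain ⟨K, hK⟩ := Set.Finite.exists_minimal
    (s := {K : Subgroup A | K.Normal ∧ K ≠ ⊥ ∧ K ≤ P ⊓ Subgroup.centralizer (P : Set A)})
    (Set.toFinite _) ⟨_, hZn, hZ, le_refl _⟩
  obtain ⟨⟨hK1, hK2, hK3⟩, hK4⟩ := hK
  have hmin : MinAb K := by
    refine ⟨hK2, hK1, ?_, ?_⟩
    · intro L hL hLK
      by_cases hLb : L = ⊥
      · exact Or.inl hLb
      · exact Or.inr (le_antisymm hLK (hK4 ⟨hL, hLb, hLK.trans hK3⟩ hLK))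
    · intro a ha b hb
      have h1 := (Subgroup.mem_inf.1 (hK3 ha)).1
      have h2 := (Subgroup.mem_inf.1 (hK3 hb)).2
      exact (Subgroup.mem_centralizer_iff.1 h2) a h1
  have hKp : IsPGroup p K := hPp.to_le (hK3.trans inf_le_left)
  rcases hKp.card_eq_or_dvd with h | h
  · exact absurd (Subgroup.eq_bot_of_card_eq K h) hK2
  · exact ⟨K, hmin, h⟩

theorem NZ1_bot {p : ℕ} [Fact p.Prime] {A : Type} [Group A] [Finite A] (hR : RedX p A)
    (P : Subgroup A) (hPn : P.Normal) (hPp : IsPGroup p P) : P = ⊥ := by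
  by_contra hP
  obtain ⟨N, h1, h2⟩ := NZ1_min P hPn hPp hP
  exact (hR N h1).1 h2

theorem NZ1 : NZ1_stmt := by
  intro p _ A _ _ hA hR
  obtain ⟨P, hPn, hPp, hnil⟩ := hA
  have hP : P = ⊥ := NZ1_bot hR P hPn hPp
  have hA : Group.IsNilpotent A := by
    subst hP
    exact (Group.isNilpotent_congr (QuotientGroup.quotientBot (G := A))).1 hnil
  refine ⟨hA, ?_⟩
  intro hdvd
  obtain ⟨S⟩ := (inferInstance : Nonempty (Sylow p A))
  have hall : ∀ (q : ℕ) (_ : Fact q.Prime) (T : Sylow q A), (T : Subgroup A).Normal :=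
    ((Group.isNilpotent_of_finite_tfae (G := A)).out 0 3).1 hA
  have hSn : (S : Subgroup A).Normal := hall p inferInstance S
  exact S.ne_bot_of_dvd_card hdvd (NZ1_bot hR S hSn S.isPGroup')

end Pool.Agent.NQ
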